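import Pool.Agent.Helper50.GP.St

/-!
# Project GP (MP_b3ce06_al): module ABF (commuting generators of finite order)
-/

set_option autoImplicit false

namespace Pool.Agent.Helper99.GP

open Pool.Agent.Helper50.GP

/-- MODULE ABF. -/
theorem hABF : StABF := by
  intro G _ s hs hcomm hfin htop
  have hmem : ∀ x : G, x ∈ Subgroup.closure s := fun x => by
    rw [htop]
    trivial
  have h1 : ∀ a ∈ s, ∀ b : G, a * b = b * a := by
    intro a ha b
    have hb := hmem b
    induction hb using Subgroup.closure_induction with
    | mem x hx => exact hcomm a ha x hx
    | one => rw [mul_one, one_mul]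
    | mul x y _ _ hx hy => rw [← mul_assoc, hx, mul_assoc, hy, mul_assoc]
    | inv x _ hx => exact ((show Commute a x from hx).inv_right).eq
  have h2 : ∀ a b : G, a * b = b * a := by
    intro a b
    have ha := hmem a
    induction ha using Subgroup.closure_induction with
    | mem x hx => exact h1 x hx b
    | one => rw [mul_one, one_mul]
    | mul x y _ _ hx hy => rw [mul_assoc, hy, ← mul_assoc, hx, mul_assoc]
    | inv x _ hx => exact ((show Commute x b from hx).inv_left).eq
  let inst : CommGroup G := { (inferInstance : Group G) with mul_comm := h2 }
  have hfg : Group.FG G := ⟨⟨hs.toFinset, by rw [Set.Finite.coe_toFinset]; exact htop⟩⟩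
  have htor : Monoid.IsTorsion G := by
    intro x
    have hx := hmem x
    induction hx using Subgroup.closure_induction with
    | mem x hx => exact hfin x hx
    | one => exact IsOfFinOrder.one
    | mul x y _ _ hx hy => exact (show Commute x y from h2 x y).isOfFinOrder_mul hx hy
    | inv x _ hx => exact hx.inv
  exact CommGroup.finite_of_fg_torsion G htor

end Pool.Agent.Helper99.GP
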